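import Pool.Agent.H99.ADJ.Base

/-! # ADJ, module AFF: scaling and the Markov property (the law) -/

set_option autoImplicit false

open MeasureTheory ProbabilityTheory Set Filter Topology
open scoped NNReal ENNReal

namespace Pool.ADJ

theorem aff_thm : S_AFF := by
  intro Ω _ μ B h a c ha hc
  lift a to ℝ≥0 using ha
  lift c to ℝ≥0 using hc.le
  have hP := h.gp.isProbabilityMeasure
  have key : ∀ t : ℝ≥0, (a : ℝ) + c * t = ((a + c * t : ℝ≥0) : ℝ) := fun t => by push_cast; rfl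
  have hL : ∀ (t : ℝ≥0) (i : Fin 2), MemLp (fun ω => B (t : ℝ) ω i) 2 μ := fun t i =>
    (h.gp.hasGaussianLaw_eval (t, i)).memLp_two
  have hI : ∀ (t : ℝ≥0) (i : Fin 2), Integrable (fun ω => B (t : ℝ) ω i) μ := fun t i =>
    (hL t i).integrable (by norm_num)
  have hC : ∀ (s t : ℝ≥0) (i j : Fin 2), cov[fun ω => B (s : ℝ) ω i, fun ω => B (t : ℝ) ω j; μ] =
      if i = j then ((min s t : ℝ≥0) : ℝ) else 0 := fun s t i j => h.cov (s, i) (t, j)
  refine ⟨fun ω => ?_, fun ω => ?_, fun t ht => ?_, ?_, fun p => ?_, fun p q => ?_⟩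
  · simp
  · have := h.cont ω
    fun_prop
  · have h1 : Measurable (B (a + c * t)) := h.meas _ (by positivity)
    have h2 : Measurable (B (a : ℝ)) := h.meas _ (by positivity)
    have h3 := (h1.sub h2).const_smul (√(c : ℝ))⁻¹
    exact h3
  · refine h.gp.of_isGaussianProcess fun p => ⟨{(a + c * p.1, p.2), (a, p.2)},
      { toFun := fun x => (√(c : ℝ))⁻¹ * (x ⟨(a + c * p.1, p.2), by simp⟩ - x ⟨(a, p.2), by simp⟩)
        map_add' := fun x y => by simp; ring
        map_smul' := fun r x => by simp; ring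
        cont := by fun_prop }, fun ω => ?_⟩
    simp
  · show ∫ ω, (√(c : ℝ))⁻¹ * (B ((a : ℝ) + c * p.1) ω p.2 - B (a : ℝ) ω p.2) ∂μ = 0
    rw [key, integral_const_mul, integral_sub (hI _ _) (hI _ _)]
    have h1 := h.mean (a + c * p.1, p.2)
    have h2 := h.mean (a, p.2)
    simp only at h1 h2
    rw [h1, h2]
    simp
  · show cov[fun ω => (√(c : ℝ))⁻¹ * (B ((a : ℝ) + c * p.1) ω p.2 - B (a : ℝ) ω p.2),
      fun ω => (√(c : ℝ))⁻¹ * (B ((a : ℝ) + c * q.1) ω q.2 - B (a : ℝ) ω q.2); μ] = _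
    rw [key, key, covariance_const_mul_left, covariance_const_mul_right,
      covariance_fun_sub_fun_sub (hL _ _) (hL _ _) (hL _ _) (hL _ _), hC, hC, hC, hC]
    by_cases hpq : p.2 = q.2
    · simp only [if_pos hpq]
      have e1 : min (a + c * p.1) (a + c * q.1) = a + c * min p.1 q.1 := by
        rw [min_add_add_left, ← mul_min]
      have e2 : min (a + c * p.1) a = a := min_eq_right (by simp)
      have e3 : min a (a + c * q.1) = a := min_eq_left (by simp)
      rw [e1, e2, e3, min_self]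
      have e4 : √(c : ℝ) * √(c : ℝ) = c := Real.mul_self_sqrt c.2
      have e5 : √(c : ℝ) ≠ 0 := (Real.sqrt_pos.2 hc).ne'
      have e6 : (√(c : ℝ))⁻¹ * ((√(c : ℝ))⁻¹ * c) = 1 := by
        have e7 : (√(c : ℝ))⁻¹ * ((√(c : ℝ))⁻¹ * (√(c : ℝ) * √(c : ℝ))) = 1 := by
          rw [inv_mul_cancel_left₀ e5, inv_mul_cancel₀ e5]
        rwa [e4] at e7
      rw [NNReal.coe_add, NNReal.coe_mul]
      calc (√(c : ℝ))⁻¹ * ((√(c : ℝ))⁻¹ * ((a : ℝ) + c * (min p.1 q.1 : ℝ≥0) - a - a + a))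
          = (√(c : ℝ))⁻¹ * ((√(c : ℝ))⁻¹ * c) * (min p.1 q.1 : ℝ≥0) := by ring
        _ = _ := by rw [e6, one_mul]
    · simp only [if_neg hpq]
      simp

end Pool.ADJ
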