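import Pool.Agent.H99.ADJ.Base

/-! # ADJ, module CPL: the completion of the probability space -/

set_option autoImplicit false

open MeasureTheory ProbabilityTheory Set Filter Topology
open scoped NNReal ENNReal

namespace Pool.ADJ

section CPL

variable {Ω : Type} [MeasurableSpace Ω] {μ : Measure Ω} {B : ℝ → Ω → Pl}

private theorem cpl_two {s t : ℝ} (hst : s < t) : StrictMono (![s, t] : Fin 2 → ℝ) := by
  intro a b hab
  fin_cases a <;> fin_cases b <;> simp_all

private theorem cpl_map (h : IsPBM μ B) {s t : ℝ} (hs : 0 ≤ s) (hst : s < t) (i : Fin 2) :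
    μ.map (fun ω => B t ω i - B s ω i) = gaussianReal 0 (t - s).toNNReal :=
  (h.incr 1 ![s, t] (cpl_two hst) hs).2 0 i

private theorem cpl_map0 (h : IsPBM μ B) {t : ℝ} (ht : 0 < t) (i : Fin 2) :
    μ.map (fun ω => B t ω i) = gaussianReal 0 t.toNNReal := by
  have h1 := cpl_map h le_rfl ht i
  simpa [h.zero] using h1

private theorem cpl_aem (h : IsPBM μ B) {t : ℝ} (ht : 0 ≤ t) (i : Fin 2) :
    AEMeasurable (fun ω => B t ω i) μ := by
  rcases ht.eq_or_lt with h0 | h0
  · subst h0
    simp only [h.zero]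
    exact aemeasurable_const
  · apply AEMeasurable.of_map_ne_zero
    rw [cpl_map0 h h0]
    exact IsProbabilityMeasure.ne_zero _

private theorem cpl_tel {m : ℕ} (f : Fin (m + 1) → ℝ) (k : Fin (m + 1)) :
    (∑ j : Fin m, if j.castSucc < k then f j.succ - f j.castSucc else 0) = f k - f 0 := by
  induction k using Fin.induction with
  | zero => simp
  | succ k ih =>
    have h1 : ∀ j : Fin m, (if j.castSucc < k.succ then f j.succ - f j.castSucc else 0) =
        (if j.castSucc < k.castSucc then f j.succ - f j.castSucc else 0) +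
          if j = k then f j.succ - f j.castSucc else 0 := by
      intro j
      by_cases h2 : j = k
      · subst h2
        simp
      · have h3 : j.castSucc < k.succ ↔ j.castSucc < k.castSucc := by
          rw [Fin.lt_def, Fin.lt_def, Fin.val_succ, Fin.val_castSucc, Fin.val_castSucc]
          have : (j : ℕ) ≠ k := fun h => h2 (Fin.ext h)
          omega
        rw [if_neg h2, add_zero]
        simp only [h3]
    rw [Finset.sum_congr rfl fun j _ => h1 j, Finset.sum_add_distrib, ih]
    simp

private theorem cpl_gp (h : IsPBM μ B) [IsProbabilityMeasure μ] :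
    IsGaussianProcess (fun (p : ℝ≥0 × Fin 2) (ω : Ω) => B (p.1 : ℝ) ω p.2) μ := by
  classical
  refine ⟨fun I => ?_⟩
  set T : Finset ℝ≥0 := insert 0 (I.image Prod.fst) with hT
  have hT0 : (0 : ℝ≥0) ∈ T := Finset.mem_insert_self _ _
  obtain ⟨m, hm⟩ : ∃ m, T.card = m + 1 :=
    Nat.exists_eq_succ_of_ne_zero (Finset.card_ne_zero_of_mem hT0)
  have hu0 : T.orderEmbOfFin hm 0 = 0 := by
    have h1 := T.orderEmbOfFin_zero hm (Nat.succ_pos m)
    have h2 : T.min' (Finset.card_pos.1 (hm.symm ▸ Nat.succ_pos m)) = 0 :=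
      le_antisymm (T.min'_le 0 hT0) zero_le
    exact h1.trans h2
  set u := T.orderEmbOfFin hm with hu
  have hus : StrictMono (fun k => (u k : ℝ)) := fun a b hab => u.strictMono hab
  obtain ⟨hind, hlaw⟩ := h.incr m (fun k => (u k : ℝ)) hus (u 0).2
  have hD : HasGaussianLaw (fun ω (p : Fin m × Fin 2) =>
      B (u p.1.succ) ω p.2 - B (u p.1.castSucc) ω p.2) μ := by
    refine hind.hasGaussianLaw fun p => ?_
    constructor
    rw [hlaw p.1 p.2]
    infer_instance
  have hidx : ∀ p : I, ∃ k : Fin (m + 1), u k = p.1.1 := by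
    intro p
    have h1 : p.1.1 ∈ T := Finset.mem_insert_of_mem (Finset.mem_image_of_mem _ p.2)
    have h2 : Set.range u = T := T.range_orderEmbOfFin hm
    have h3 : p.1.1 ∈ Set.range u := by
      rw [h2]
      exact h1
    exact h3
  choose k hk using hidx
  let L : (Fin m × Fin 2 → ℝ) →L[ℝ] (I → ℝ) :=
    { toFun := fun x p => ∑ j : Fin m, if j.castSucc < k p then x (j, p.1.2) else 0
      map_add' := fun x y => by
        ext p
        rw [Pi.add_apply, ← Finset.sum_add_distrib]
        refine Finset.sum_congr rfl fun j _ => ?_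
        split_ifs <;> simp
      map_smul' := fun r x => by
        ext p
        simp only [Pi.smul_apply, smul_eq_mul, RingHom.id_apply, Finset.mul_sum]
        refine Finset.sum_congr rfl fun j _ => ?_
        split_ifs <;> simp
      cont := by
        refine continuous_pi fun p => continuous_finsetSum _ fun j _ => ?_
        split_ifs
        · exact continuous_apply _
        · exact continuous_const }
  have e : (fun ω => I.restrict (fun p : ℝ≥0 × Fin 2 => B (p.1 : ℝ) ω p.2)) =
      fun ω => L (fun p : Fin m × Fin 2 => B (u p.1.succ) ω p.2 - B (u p.1.castSucc) ω p.2) := by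
    funext ω
    ext p
    have h1 := cpl_tel (fun j => B (u j) ω p.1.2) (k p)
    rw [hk, hu0] at h1
    have h2 : B ((0 : ℝ≥0) : ℝ) ω p.1.2 = 0 := by
      rw [NNReal.coe_zero, h.zero]
      rfl
    rw [h2, sub_zero] at h1
    exact h1.symm
  rw [e]
  exact hD.map L

private theorem cpl_mean (h : IsPBM μ B) [IsProbabilityMeasure μ] (t : ℝ≥0) (i : Fin 2) :
    ∫ ω, B t ω i ∂μ = 0 := by
  rcases t.2.eq_or_lt with h0 | h0
  · have : (t : ℝ) = 0 := h0.symm
    simp [this, h.zero]
  · have h1 := cpl_map0 h h0 i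
    have h2 : ∫ x, x ∂(μ.map fun ω => B t ω i) = ∫ ω, B t ω i ∂μ :=
      integral_map (cpl_aem h t.2 i) aestronglyMeasurable_id
    rw [← h2]
    erw [h1]
    exact integral_id_gaussianReal

private theorem cpl_cov0 (h : IsPBM μ B) [IsProbabilityMeasure μ] {t : ℝ} (ht : 0 < t)
    (i j : Fin 2) : cov[fun ω => B t ω i, fun ω => B t ω j; μ] = if i = j then t else 0 := by
  have hgp := cpl_gp h
  have hL : ∀ i : Fin 2, MemLp (fun ω => B t ω i) 2 μ := fun i =>
    (hgp.hasGaussianLaw_eval (⟨t, ht.le⟩, i)).memLp_two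
  split_ifs with hij
  · subst hij
    rw [covariance_self (cpl_aem h ht.le i)]
    have h1 : HasLaw (fun ω => B t ω i) (gaussianReal 0 t.toNNReal) μ :=
      ⟨cpl_aem h ht.le i, cpl_map0 h ht i⟩
    rw [h1.variance_eq, variance_id_gaussianReal, Real.coe_toNNReal _ ht.le]
  · have h1 := (h.incr 1 ![0, t] (cpl_two ht) le_rfl).1
    have h2 : ((0 : Fin 1), i) ≠ ((0 : Fin 1), j) := fun h => hij (congrArg Prod.snd h)
    have h3 := h1.indepFun h2
    have h4 : IndepFun (fun ω => B t ω i) (fun ω => B t ω j) μ := by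
      simpa [h.zero] using h3
    exact h4.covariance_eq_zero (hL i) (hL j)

private theorem cpl_cov1 (h : IsPBM μ B) [IsProbabilityMeasure μ] {s t : ℝ} (hs : 0 < s)
    (hst : s < t) (i j : Fin 2) :
    cov[fun ω => B s ω i, fun ω => B t ω j; μ] = if i = j then s else 0 := by
  have hgp := cpl_gp h
  have hL : ∀ (t : ℝ) (ht : 0 ≤ t) (i : Fin 2), MemLp (fun ω => B t ω i) 2 μ := fun t ht i =>
    (hgp.hasGaussianLaw_eval (⟨t, ht⟩, i)).memLp_two
  have hm : StrictMono (![0, s, t] : Fin 3 → ℝ) := by
    intro a b hab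
    have := hs.trans hst
    fin_cases a <;> fin_cases b <;> simp_all
  have h1 := (h.incr 2 ![0, s, t] hm le_rfl).1
  have h2 : ((0 : Fin 2), i) ≠ ((1 : Fin 2), j) := fun h => by
    have := congrArg Prod.fst h
    simp at this
  have h3 := h1.indepFun h2
  have h4 : IndepFun (fun ω => B s ω i) (fun ω => B t ω j - B s ω j) μ := by
    have h5 : (fun ω => B s ω i - B 0 ω i) = fun ω => B s ω i := by
      funext ω
      rw [h.zero]
      simp
    have h6 : IndepFun (fun ω => B s ω i - B 0 ω i) (fun ω => B t ω j - B s ω j) μ := h3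
    rwa [h5] at h6
  have ht : 0 ≤ t := (hs.trans hst).le
  have h5 := h4.covariance_eq_zero (hL s hs.le i) ((hL t ht j).sub (hL s hs.le j))
  have h6 : cov[fun ω => B s ω i, fun ω => B t ω j - B s ω j; μ] =
      cov[fun ω => B s ω i, fun ω => B t ω j; μ] - cov[fun ω => B s ω i, fun ω => B s ω j; μ] :=
    covariance_fun_sub_right (hL s hs.le i) (hL t ht j) (hL s hs.le j)
  rw [h6, cpl_cov0 h hs, sub_eq_zero] at h5
  exact h5

private theorem cpl_PB (h : IsPBM μ B) [IsProbabilityMeasure μ]
    (hm : ∀ t, 0 ≤ t → Measurable (B t)) : PB μ B := by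
  refine ⟨h.zero, h.cont, hm, cpl_gp h, fun p => cpl_mean h p.1 p.2, ?_⟩
  have main : ∀ (s t : ℝ≥0) (i j : Fin 2), s ≤ t →
      cov[fun ω => B (s : ℝ) ω i, fun ω => B (t : ℝ) ω j; μ] =
        if i = j then ((min s t : ℝ≥0) : ℝ) else 0 := by
    intro s t i j hst
    rw [min_eq_left hst]
    rcases s.2.eq_or_lt with h0 | h0
    · have h1 : (s : ℝ) = 0 := h0.symm
      have h2 : (fun ω => B (s : ℝ) ω i) = fun _ => (0 : ℝ) := by
        funext ω
        rw [h1, h.zero]
        rfl
      rw [h2, h1]
      simp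
    · rcases hst.eq_or_lt with h1 | h1
      · subst h1
        exact cpl_cov0 h h0 i j
      · exact cpl_cov1 h h0 h1 i j
  intro p q
  rcases le_total p.1 q.1 with h1 | h1
  · exact main p.1 q.1 p.2 q.2 h1
  · rw [covariance_comm, main q.1 p.1 q.2 p.2 h1, min_comm]
    simp only [eq_comm]

end CPL

theorem cpl_thm : S_CPL := by
  intro Ω _ μ _ B h
  have hca : ∀ s : Set Ω, (μ.completion : Measure (NullMeasurableSpace Ω μ)) s = μ s := fun s =>
    Measure.completion_apply μ s
  have hP : IsProbabilityMeasure (μ.completion : Measure (NullMeasurableSpace Ω μ)) :=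
    ⟨(hca univ).trans measure_univ⟩
  have hM : ∀ {β : Type} [MeasurableSpace β] (f : Ω → β), AEMeasurable f μ →
      Measurable (fun ω : NullMeasurableSpace Ω μ => f ω) := fun f hf => hf.nullMeasurable
  have hmap : ∀ {β : Type} [MeasurableSpace β] (f : Ω → β), AEMeasurable f μ →
      (μ.completion : Measure (NullMeasurableSpace Ω μ)).map
        (fun ω : NullMeasurableSpace Ω μ => f ω) = μ.map f := by
    intro β _ f hf
    ext s hs
    rw [Measure.map_apply_of_aemeasurable hf hs]
    exact (Measure.map_apply (hM f hf) hs).trans (hca _)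
  have hc : IsPBM (Ω := NullMeasurableSpace Ω μ) μ.completion B := by
    refine ⟨h.zero, h.cont, fun n t ht h0 => ⟨?_, fun j i => ?_⟩⟩
    · have h1 := (h.incr n t ht h0).1
      rw [iIndepFun_iff_measure_inter_preimage_eq_mul] at h1
      refine iIndepFun_iff_measure_inter_preimage_eq_mul.2 fun S sets hsets => ?_
      refine (hca _).trans ((h1 S hsets).trans ?_)
      exact Finset.prod_congr rfl fun p _ => (hca _).symm
    · rw [← (h.incr n t ht h0).2 j i]
      have h1 : ∀ k : Fin (n + 1), 0 ≤ t k := fun k => h0.trans (ht.monotone (Fin.zero_le k))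
      exact hmap (fun ω => B (t j.succ) ω i - B (t j.castSucc) ω i)
        ((cpl_aem h (h1 _) i).sub (cpl_aem h (h1 _) i))
  refine cpl_PB hc fun t ht => ?_
  exact measurable_pi_lambda _ fun i => hM (fun ω => B t ω i) (cpl_aem h ht i)

end Pool.ADJ
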